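import Pool.Agent.P.MP_ed1e41_co.AS.All

namespace Pool.Agent.Results.MP_ed1e41_co.Asymptotic

open Pool.Agent.P.MP_ed1e41_co Pool.Agent.P.MP_ed1e41_co.AS

/-- The minimum shadow is `(1 + O(1/M)) m (t + j) / (j + 1)`, uniformly in `n`, `k`, `t`, `m`,
where `j` is the index with `|A (j+1)| < m ≤ |A j|`, as soon as `t + j ≥ 10 ^ 5 M ^ 4` or
`m ≥ 6 M |A (j+1)|`; the first `m` members of `A j` in the colex order attain this estimate. -/
theorem result (n k t m : ℕ) (ht : 1 ≤ t) (htk : t ≤ k) (hm : (2 * k - t).choose k < m)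
    (hadm : ∃ 𝓕, Adm n k t m 𝓕) :
    ∃ j < k - t, (frankl n k t (j + 1)).card < m ∧ m ≤ (frankl n k t j).card ∧
      ∀ M : ℕ, 1 ≤ M → (10 ^ 5 * M ^ 4 ≤ t + j ∨ 6 * M * (frankl n k t (j + 1)).card ≤ m) →
        (1 - 1 / (M : ℝ)) * (((t : ℝ) + j) / (j + 1) * m) ≤ minShadow n k t m ∧
        minShadow n k t m ≤ (Finset.shadow (colexInit (frankl n k t j) m)).card ∧
        ((Finset.shadow (colexInit (frankl n k t j) m)).card : ℝ) ≤
          (1 + 1 / (M : ℝ)) * (((t : ℝ) + j) / (j + 1) * m) := by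
  obtain ⟨d, rfl⟩ : ∃ d, k = t + d := ⟨k - t, by omega⟩
  rw [show 2 * (t + d) - t = t + 2 * d by omega] at hm
  rw [Nat.add_sub_cancel_left]
  obtain ⟨𝓖, g1, g2⟩ := Hull.minShadow_spec hadm
  obtain ⟨j, hj, hS⟩ := exists_St ht hm g1
  refine ⟨j, hj, hS.lo, hS.hi, fun M hM hc => ⟨?_, Hull.minShadow_le (adm_colex hS.hi), ?_⟩⟩
  · have h1 := a_LOW _ _ _ _ _ _ _ hS M hM hc 𝓖 g1
    rw [g2] at h1
    have h2 : (M : ℝ) * (t + j) * m ≤ M * (j + 1) * minShadow n (t + d) t m + (t + j) * m := by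
      exact_mod_cast h1
    have h3 : (0 : ℝ) < M := by exact_mod_cast hM
    refine le_of_mul_le_mul_left ?_ (show (0 : ℝ) < M * (j + 1) by positivity)
    have : (M : ℝ) * (j + 1) * ((1 - 1 / (M : ℝ)) * (((t : ℝ) + j) / (j + 1) * m)) =
        M * (t + j) * m - (t + j) * m := by field_simp
    linarith
  · have h1 := a_UP _ _ _ _ _ _ _ hS M hM hc
    have h2 : (M : ℝ) * (j + 1) * (Finset.shadow (colexInit (frankl n (t + d) t j) m)).card ≤
        (M + 1) * (t + j) * m := by exact_mod_cast h1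
    have h3 : (0 : ℝ) < M := by exact_mod_cast hM
    refine le_of_mul_le_mul_left ?_ (show (0 : ℝ) < M * (j + 1) by positivity)
    have : (M : ℝ) * (j + 1) * ((1 + 1 / (M : ℝ)) * (((t : ℝ) + j) / (j + 1) * m)) =
        (M + 1) * (t + j) * m := by field_simp
    linarith

end Pool.Agent.Results.MP_ed1e41_co.Asymptotic
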