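import Pool.Agent.P.MP_ed1e41_co.H.Line

namespace Pool.Agent.Results.MP_ed1e41_co.Envelope

open Pool.Agent.P.MP_ed1e41_co Pool.Agent.P.MP_ed1e41_co.Hull

/-- The lower convex envelope of the minimum shadow function, for all `n`, `k`, `t`: every
admissible `m` above `(2 k - t).choose k` lies between the sizes of two consecutive Frankl families,
both of them have the minimum shadow for their sizes, and the line through the two points
(size, size of the shadow) lies below the minimum shadow function at every admissible `m'`. -/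
theorem result (n k t m : ℕ) (ht : 1 ≤ t) (htk : t ≤ k) (hm : (2 * k - t).choose k < m)
    (hadm : ∃ 𝓕, Adm n k t m 𝓕) :
    ∃ j < k - t, (frankl n k t (j + 1)).card < m ∧ m ≤ (frankl n k t j).card ∧
      minShadow n k t (frankl n k t j).card = (Finset.shadow (frankl n k t j)).card ∧
      minShadow n k t (frankl n k t (j + 1)).card = (Finset.shadow (frankl n k t (j + 1))).card ∧
      ∀ m' : ℕ, (∃ 𝓖, Adm n k t m' 𝓖) →
        ((m' : ℤ) - (frankl n k t (j + 1)).card) * (Finset.shadow (frankl n k t j)).card +
          (((frankl n k t j).card : ℤ) - m') * (Finset.shadow (frankl n k t (j + 1))).card ≤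
          (((frankl n k t j).card : ℤ) - (frankl n k t (j + 1)).card) * minShadow n k t m' := by
  obtain ⟨d, rfl⟩ : ∃ d, k = t + d := ⟨k - t, by omega⟩
  rw [show 2 * (t + d) - t = t + 2 * d by omega] at hm
  rw [Nat.add_sub_cancel_left]
  obtain ⟨𝓕, h⟩ := hadm
  have hn : t + 2 * d + 1 ≤ n := by
    refine not_lt.1 fun hlt => ?_
    have h1 := Finset.card_le_card h.1
    rw [Finset.card_powersetCard, Finset.card_range, h.2.2] at h1
    have h2 := Nat.choose_le_choose (t + d) (show n ≤ t + 2 * d by omega)
    omega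
  obtain ⟨j, hj, h1, h2⟩ := exists_index ht hn hm h
  have key : ∀ m' : ℕ, (∃ 𝓖, Adm n (t + d) t m' 𝓖) → _ := fun m' hm' => by
    have h3 := line ht hn hj (h1.trans_le h2) (minShadow_spec hm').choose_spec.1
    rw [(minShadow_spec hm').choose_spec.2] at h3
    exact h3
  have hpos : (0 : ℤ) < ((frankl n (t + d) t j).card : ℤ) - (frankl n (t + d) t (j + 1)).card := by
    omega
  refine ⟨j, hj, h1, h2, le_antisymm (minShadow_le (adm_frankl _ _ _ _)) ?_,
    le_antisymm (minShadow_le (adm_frankl _ _ _ _)) ?_, key⟩
  · have h3 := key _ ⟨_, adm_frankl n (t + d) t j⟩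
    rw [sub_self, zero_mul, add_zero] at h3
    exact_mod_cast le_of_mul_le_mul_left h3 hpos
  · have h3 := key _ ⟨_, adm_frankl n (t + d) t (j + 1)⟩
    rw [sub_self, zero_mul, zero_add] at h3
    exact_mod_cast le_of_mul_le_mul_left h3 hpos

end Pool.Agent.Results.MP_ed1e41_co.Envelope
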