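import Pool.Agent.P.MP_ed1e41_co.XL.D

namespace Pool.Agent.Results.MP_ed1e41_co.ExactLarge

open Pool.Agent.P.MP_ed1e41_co Pool.Agent.P.MP_ed1e41_co.AS

/-- For every admissible `m` let `j ≤ k - t` be the largest index of a Frankl family with at least
`m` members. The minimum shadow is the shadow of the first `m` members of this family in the colex
order, except possibly when `t` is small in terms of `j` and `m` is close to the size of the next
Frankl family; for a large ground set the exceptional window is made explicit. -/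
theorem result : ∃ n₀ : ℕ → ℕ, ∀ n k t m : ℕ, 1 ≤ t → t ≤ k → (∃ 𝓕, Adm n k t m 𝓕) →
    ∃ j ≤ k - t, m ≤ (frankl n k t j).card ∧
      (∀ l, j < l → l ≤ k - t → (frankl n k t l).card < m) ∧
      (min (10 ^ 7 * (j + 1) ^ 4) (10 * (k - t) ^ 4) ≤ t ∨
        10 ^ 8 * (t + j) ^ 4 * (t + 2 * j).choose j * (frankl n k t (j + 1)).card ≤ m ∨
        (j + 1 = k - t ∧ 2 * j * (j + 3) ≤ t) ∨
        (n₀ k ≤ n ∧ j + 2 ≤ k - t ∧ (j ≤ 4 ∨ j * (j + 3) < t ∨ ∀ u, 1 ≤ u → u ≤ j →
          ((t + j) * (j + 2) * (j + 1 - u) + u * (t - 1)) * ((t + 2 * j + 2).choose (j + 1) -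
              ((t + j + u - 1).choose (j + 1) - (t + j + u - 1).choose (j - 1))) *
              (frankl n k t (j + 1)).card ≤
            (t + j) * (j + 2) * (j + 1 - u) * (t + 2 * j + 2).choose (j + 1) * m)) →
        minShadow n k t m = (Finset.shadow (colexInit (frankl n k t j) m)).card) := by
  choose g hg using XL.core_all
  refine ⟨g, fun n k t m ht htk hadm => ?_⟩
  obtain ⟨d, rfl⟩ : ∃ d, k = t + d := ⟨k - t, by omega⟩
  rw [Nat.add_sub_cancel_left]
  obtain ⟨𝓖, g1, g2⟩ := Hull.minShadow_spec hadm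
  by_cases hd : m ≤ (frankl n (t + d) t d).card
  · exact ⟨d, le_rfl, hd, fun l h1 h2 => by omega, fun _ =>
      le_antisymm (Hull.minShadow_le (adm_colex hd)) (g2 ▸ top_case hd g1)⟩
  have h1 := g1.le_n (not_le.1 hd)
  rw [Hull.card_top h1] at hd
  obtain ⟨j, hj, hS⟩ := exists_St ht (not_le.1 hd) g1
  have hmax : ∀ l, j < l → l ≤ d → (frankl n (t + d) t l).card < m := fun l h1 h2 =>
    ((a_PZ _ _ _ _ _ _ ht hS.hd hS.e1 hS.hn hS.hq (hS.lo.trans_le hS.hi)).2 l h1 h2).trans_lt hS.lo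
  refine ⟨j, hj.le, hS.hi, hmax, fun h => ?_⟩
  rcases h with h | h | ⟨h, h2⟩ | ⟨h, h2, h3⟩
  · rcases min_le_iff.1 h with h | h
    · exact le_antisymm (Hull.minShadow_le (adm_colex hS.hi))
        (g2 ▸ a_EXC _ _ _ _ _ _ _ hS h 𝓖 g1)
    · exact minShadow_eq ht h hj.le hS.hi hmax
  · exact le_antisymm (Hull.minShadow_le (adm_colex hS.hi))
      (g2 ▸ p_EXDK a_EXY a_GDT a_GDO _ _ _ _ _ _ _ hS h 𝓖 g1)
  · rw [show d - j = 1 by omega] at hS
    exact le_antisymm (Hull.minShadow_le (adm_colex hS.hi)) (g2 ▸ XL.top hS h2 𝓖 g1)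
  · exact le_antisymm (Hull.minShadow_le (adm_colex hS.hi))
      (g2 ▸ hg _ n h t d j m _ _ rfl (by omega) h3 hS 𝓖 g1)

end Pool.Agent.Results.MP_ed1e41_co.ExactLarge
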