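import Pool.Agent.P.MP_ed1e41_co.XL.G

namespace Pool.Agent.Results.MP_ed1e41_co.Hybrid

open Pool.Agent.P.MP_ed1e41_co Finset

/-- For a large ground set and `m` in an explicit range just above the size of the Frankl family of
index `j + 1`, the index `j` is the largest one of a Frankl family with at least `m` members, and
the minimum shadow is smaller than the shadow of the first `m` members of this family in the colex
order. -/
theorem result : ∃ n₀ : ℕ → ℕ, ∀ n k t j u m : ℕ, 1 ≤ t → 1 ≤ u → u ≤ j → t + j + 2 ≤ k →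
    n₀ k ≤ n → (frankl n k t (j + 1)).card < m →
    (t + j) * (j + 2) * (j + 1 - u) * (t + 2 * j + 2).choose (j + 1) * m +
        ((j + 1) * (t + j) * (j + 2) * (t + j + u - 1).choose (j + 1) + 1) *
          (frankl n k t (j + 1)).card ≤
      (((t + j) * (j + 2) * (j + 1 - u) + u * (t - 1)) * (t + 2 * j + 2).choose (j + 1) +
        (j + 1) * u * (t + u - 2) * (t + j + u - 1).choose (j + 1)) * (frankl n k t (j + 1)).card →
    m ≤ (frankl n k t j).card ∧ (∀ l, j < l → l ≤ k - t → (frankl n k t l).card < m) ∧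
      minShadow n k t m < (Finset.shadow (colexInit (frankl n k t j) m)).card := by
  choose g hg using XL.hybrid
  refine ⟨fun k => ∑ p ∈ range k ×ˢ range k ×ˢ range k ×ˢ range k, g p.1 p.2.1 p.2.2.1 p.2.2.2,
    fun n k t j u m ht hu huj hk hn hlo hc => ?_⟩
  obtain ⟨t, rfl⟩ : ∃ t', t = t' + 1 := ⟨t - 1, by omega⟩
  obtain ⟨a, rfl⟩ : ∃ a, u = a + 1 := ⟨u - 1, by omega⟩
  obtain ⟨w, hw⟩ : ∃ w, j = a + 1 + w := ⟨j - (a + 1), by omega⟩
  obtain ⟨f, hf⟩ : ∃ f, k = t + 1 + j + f + 2 := ⟨k - (t + 1 + j + 2), by omega⟩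
  rw [show j + 1 - (a + 1) = w + 1 by omega, show t + 1 + j + (a + 1) - 1 = t + 1 + j + a by omega,
    Nat.add_sub_cancel, show t + 1 + (a + 1) - 2 = t + a by omega] at hc
  rw [show k - (t + 1) = j + f + 2 by omega]
  refine hg t a w f n (le_trans ?_ hn) j k m hw hf hlo hc
  exact single_le_sum (f := fun p : ℕ × ℕ × ℕ × ℕ => g p.1 p.2.1 p.2.2.1 p.2.2.2)
    (fun _ _ => Nat.zero_le _) (a := (t, a, w, f)) (by
      simp only [mem_product, mem_range]
      omega)

end Pool.Agent.Results.MP_ed1e41_co.Hybrid
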